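import Pool.Agent.Lib.MP_c3d375_an.Lower
import Pool.Agent.Lib.MP_c3d375_an.Lower2
import Pool.Agent.Lib.MP_c3d375_an.Neg.Iface

/-!
# MP_c3d375_an, negation: a general lower bound with a Jordan block, and facts about `chi`
-/

open Complex Metric Set Filter Topology Polynomial

namespace Pool.Agent.Lib.MP_c3d375_an.FarX

open Pool.Agent.Lib.MP_c3d375_an C3N

/-- Jordan block in a disc contained in `C₁` -/
theorem disc_mem_W' {c : ℂ} {r : ℝ} (hr : 0 < r) {C₁ C₂ V : Set ℂ} (hC₁ : closedBall c r ⊆ C₁)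
    (hV : IsOpen V) (hsub : C₁ ⊆ V) {f : ℂ → ℂ} (hf : DifferentiableOn ℂ f V)
    (hfC : f '' C₁ ⊆ C₂) {ζ : ℂ} (hζ : ‖ζ‖ ≤ 1) :
    f c + r * deriv f c * ζ ∈ W C₁ C₂ := by
  have h1 : f c + r * deriv f c * ζ ∈ W (closedBall c r) C₂ :=
    disc_mem_W hr hV (hC₁.trans hsub) hf ((image_mono hC₁).trans hfC) hζ
  obtain ⟨x, hx, hxζ⟩ := exists_unit_vector hζ
  refine ⟨E2, inferInstance, inferInstance, inferInstance, c • 1 + (r : ℂ) • J, f,
    (f c) • 1 + ((r : ℂ) * deriv f c) • J, V, fun y hy => ?_, hV, hsub, hf, hfC, ?_, x, hx, ?_⟩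
  · apply hC₁
    rw [add_apply, inner_add_right, smul_apply, smul_apply, inner_smul_right, inner_smul_right,
      inner_one_apply, inner_J, hy, mem_closedBall, dist_eq_norm]
    have h1 := norm_sq_E2 y
    rw [hy] at h1
    have h2 : ‖(2 * ((starRingEnd ℂ) (y 0) * y 1) : ℂ)‖ ≤ 1 := by
      rw [norm_mul, norm_mul, RCLike.norm_conj, Complex.norm_ofNat]
      nlinarith [sq_nonneg (‖y 0‖ - ‖y 1‖)]
    have h3 : c * ((1 ^ 2 : ℝ) : ℂ) + r * (2 * ((starRingEnd ℂ) (y 0) * y 1)) - c =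
        r * (2 * ((starRingEnd ℂ) (y 0) * y 1)) := by
      push_cast; ring
    rw [h3, norm_mul, Complex.norm_real, Real.norm_eq_abs, abs_of_pos hr]
    nlinarith
  · -- polynomials
    have hcV : c ∈ V := hsub (hC₁ (mem_closedBall_self hr.le))
    obtain ⟨ε, hε, hball⟩ := Metric.isOpen_iff.1 hV c hcV
    obtain ⟨p, hp⟩ := exists_poly_approx (R := ε / 2) (by positivity) (by linarith)
      (hf.mono hball)
    have hp' : TendstoUniformlyOn (fun n z => (p n).eval z) f atTop (ball c (ε / 2)) :=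
      hp.mono ball_subset_closedBall
    refine ⟨p, ball c (ε / 2), isOpen_ball, ?_, hp', ?_⟩
    · intro z hz
      -- spectrum of a Jordan block
      by_contra hcon
      have hzc : z - c ≠ 0 := by
        intro h
        apply hcon
        rw [mem_ball, dist_eq_norm, h, norm_zero]
        positivity
      apply spectrum.mem_iff.1 hz
      have hJ : J * J = (0 : ℂ) • J := by rw [J_sq, zero_smul ℂ J]
      refine isUnit_iff_exists.2 ⟨(z - c)⁻¹ • 1 + (r * ((z - c)⁻¹ * (z - c)⁻¹)) • J, ?_, ?_⟩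
      · rw [Algebra.algebraMap_eq_smul_one]
        simp only [sub_mul, add_mul, mul_add, smul_mul_assoc, mul_smul_comm, one_mul, mul_one,
          hJ]
        have e1 : z * (z - c)⁻¹ - c * (z - c)⁻¹ = 1 := by
          rw [← sub_mul, mul_inv_cancel₀ hzc]
        have e2 : z * (r * ((z - c)⁻¹ * (z - c)⁻¹)) - c * (r * ((z - c)⁻¹ * (z - c)⁻¹)) -
            r * (z - c)⁻¹ = 0 := by
          rw [← sub_mul]
          field_simp
          ring
        have : (z * (z - c)⁻¹ - c * (z - c)⁻¹) • (1 : E2 →L[ℂ] E2) +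
          (z * (r * ((z - c)⁻¹ * (z - c)⁻¹)) - c * (r * ((z - c)⁻¹ * (z - c)⁻¹)) -
            r * (z - c)⁻¹) • J = 1 := by
          rw [e1, e2, zero_smul ℂ J, one_smul, add_zero]
        refine Eq.trans ?_ this
        module
      · rw [Algebra.algebraMap_eq_smul_one]
        simp only [mul_sub, add_mul, mul_add, smul_mul_assoc, mul_smul_comm, one_mul, mul_one,
          hJ]
        have e1 : z * (z - c)⁻¹ - c * (z - c)⁻¹ = 1 := by
          rw [← sub_mul, mul_inv_cancel₀ hzc]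
        have e2 : z * (r * ((z - c)⁻¹ * (z - c)⁻¹)) - c * (r * ((z - c)⁻¹ * (z - c)⁻¹)) -
            r * (z - c)⁻¹ = 0 := by
          rw [← sub_mul]
          field_simp
          ring
        have : (z * (z - c)⁻¹ - c * (z - c)⁻¹) • (1 : E2 →L[ℂ] E2) +
          (z * (r * ((z - c)⁻¹ * (z - c)⁻¹)) - c * (r * ((z - c)⁻¹ * (z - c)⁻¹)) -
            r * (z - c)⁻¹) • J = 1 := by
          rw [e1, e2, zero_smul ℂ J, one_smul, add_zero]
        refine Eq.trans ?_ this
        module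
    · have hcb : c ∈ ball c (ε / 2) := mem_ball_self (by positivity)
      have h1 : Tendsto (fun n => (p n).eval c) atTop (𝓝 (f c)) := hp'.tendsto_at hcb
      have h2 : Tendsto (fun n => (derivative (p n)).eval c) atTop (𝓝 (deriv f c)) := by
        have := hp'.tendstoLocallyUniformlyOn.deriv
          (Eventually.of_forall fun n => (p n).differentiable.differentiableOn) isOpen_ball
        have h3 := (this.tendsto_at hcb)
        refine h3.congr fun n => ?_
        simp only [Function.comp, Polynomial.deriv]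
      have h3 : (fun n => aeval (c • (1 : E2 →L[ℂ] E2) + (r : ℂ) • J) (p n)) =
          fun n => ((p n).eval c) • (1 : E2 →L[ℂ] E2) + (r * (derivative (p n)).eval c) • J := by
        funext n
        exact aeval_jordan c r (p n)
      rw [h3]
      exact (h1.smul_const _).add ((h2.const_mul _).smul_const _)
  · rw [add_apply, inner_add_right, smul_apply, smul_apply, inner_smul_right, inner_smul_right,
      inner_one_apply, hxζ, hx]
    simp

/-- the inverse of `chi`; `sq` is the principal square root -/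
noncomputable def gg (a e : ℝ) (w : ℂ) : ℂ := ((1 + a * w) - sq ((1 - a * w) ^ 2 + 4 * e)) / (2 * a)

section basics

variable {a e : ℝ}

theorem re_b (ha : 0 < a) {z : ℂ} (hz : ‖z‖ ≤ 1) : 1 - a ≤ (1 - a * z : ℂ).re := by
  have h1 : z.re ≤ 1 := (Complex.re_le_norm z).trans hz
  simp only [sub_re, one_re, mul_re, ofReal_re, ofReal_im, zero_mul, sub_zero]
  nlinarith

theorem b_ne (ha : 0 < a) (ha1 : a < 1) {z : ℂ} (hz : ‖z‖ ≤ 1) : (1 - a * z : ℂ) ≠ 0 := by
  intro h
  have := re_b ha hz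
  rw [h, zero_re] at this
  linarith

theorem norm_b_ge (ha : 0 < a) {z : ℂ} (hz : ‖z‖ ≤ 1) : 1 - a ≤ ‖(1 - a * z : ℂ)‖ :=
  (re_b ha hz).trans (Complex.re_le_norm _)

/-- the disc of radius one centred at `chi 0 = e / a` is contained in `C1` -/
theorem ball_subset_C1 (ha : 0 < a) (ha1 : a < 1) (he : 0 < e) (he1 : e < (1 - a) ^ 2) :
    closedBall (e / a : ℂ) 1 ⊆ C1 a e := by
  intro w hw
  have ha' : (a : ℂ) ≠ 0 := by exact_mod_cast ha.ne'
  have h1a : 0 < 1 - a := by linarith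
  set u : ℂ := w - e / a with hu
  have hu1 : ‖u‖ ≤ 1 := by rwa [mem_closedBall, dist_eq_norm] at hw
  set Ψ : ℂ → ℂ := fun z => u / (1 + e / (1 - a * z)) with hΨ
  have hden : ∀ z : ℂ, ‖z‖ ≤ 1 → 1 ≤ ‖(1 + e / (1 - a * z) : ℂ)‖ := by
    intro z hz
    have h2 : 0 ≤ ((e : ℂ) / (1 - a * z)).re := by
      rw [Complex.div_re, ofReal_re, ofReal_im, zero_mul, zero_div, add_zero]
      have := re_b ha hz
      have h3 := Complex.normSq_nonneg (1 - a * z : ℂ)
      have h4 : 0 ≤ (1 - a * z : ℂ).re := by linarith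
      positivity
    have h3 := Complex.re_le_norm (1 + e / (1 - a * z) : ℂ)
    rw [add_re, one_re] at h3
    linarith
  have hmaps : MapsTo Ψ (closedBall 0 1) (closedBall 0 1) := by
    intro z hz
    rw [mem_closedBall, dist_zero_right] at hz ⊢
    rw [hΨ, norm_div]
    have := hden z hz
    rw [div_le_one (by linarith)]
    linarith
  set K : ℝ := e / (1 - a) ^ 2 with hK
  have hK0 : 0 < K := by positivity
  have hK1 : K < 1 := by rw [hK, div_lt_one (by positivity)]; exact he1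
  have hcon : ∀ z z' : ℂ, ‖z‖ ≤ 1 → ‖z'‖ ≤ 1 → ‖Ψ z - Ψ z'‖ ≤ K * ‖z - z'‖ := by
    intro z z' hz hz'
    have hb := b_ne ha ha1 hz
    have hb' := b_ne ha ha1 hz'
    have hd := hden z hz
    have hd' := hden z' hz'
    have hdn : (1 + e / (1 - a * z) : ℂ) ≠ 0 := by
      intro h; rw [h, norm_zero] at hd; linarith
    have hdn' : (1 + e / (1 - a * z') : ℂ) ≠ 0 := by
      intro h; rw [h, norm_zero] at hd'; linarith
    have e1 : Ψ z - Ψ z' = u * (e * a * (z' - z)) /
        ((1 + e / (1 - a * z)) * (1 + e / (1 - a * z')) * ((1 - a * z) * (1 - a * z'))) := by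
      have e2 : (1 + e / (1 - a * z') : ℂ) - (1 + e / (1 - a * z)) =
          e * a * (z' - z) / ((1 - a * z) * (1 - a * z')) := by
        rw [add_sub_add_left_eq_sub, div_sub_div _ _ hb' hb,
          div_eq_div_iff (mul_ne_zero hb' hb) (mul_ne_zero hb hb')]
        ring
      have e3 : Ψ z - Ψ z' = u * ((1 + e / (1 - a * z') : ℂ) - (1 + e / (1 - a * z))) /
          ((1 + e / (1 - a * z)) * (1 + e / (1 - a * z'))) := by
        show u / (1 + e / (1 - a * z)) - u / (1 + e / (1 - a * z')) = _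
        rw [div_sub_div _ _ hdn hdn']
        congr 1
        ring
      rw [e3, e2, mul_div_assoc', div_div, mul_comm ((1 - a * z) * (1 - a * z') : ℂ)]
    rw [e1, norm_div, norm_mul, norm_mul, norm_mul, norm_mul, norm_mul, norm_mul,
      Complex.norm_real, Complex.norm_real, Real.norm_eq_abs, Real.norm_eq_abs, abs_of_pos he,
      abs_of_pos ha, norm_sub_rev z' z]
    have hB := norm_b_ge ha hz
    have hB' := norm_b_ge ha hz'
    have h5 : (1 - a) ^ 2 ≤ ‖(1 + e / (1 - a * z) : ℂ)‖ * ‖(1 + e / (1 - a * z') : ℂ)‖ *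
        (‖(1 - a * z : ℂ)‖ * ‖(1 - a * z' : ℂ)‖) := by
      have h6 : 1 * 1 ≤ ‖(1 + e / (1 - a * z) : ℂ)‖ * ‖(1 + e / (1 - a * z') : ℂ)‖ :=
        mul_le_mul hd hd' zero_le_one (by linarith)
      have h7 : (1 - a) * (1 - a) ≤ ‖(1 - a * z : ℂ)‖ * ‖(1 - a * z' : ℂ)‖ :=
        mul_le_mul hB hB' h1a.le (norm_nonneg _)
      calc (1 - a) ^ 2 = (1 * 1) * ((1 - a) * (1 - a)) := by ring
        _ ≤ _ := mul_le_mul h6 h7 (by positivity) (by positivity)
    rw [div_le_iff₀ (by positivity)]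
    have h8 : 0 ≤ ‖z - z'‖ := norm_nonneg _
    have h9 : ‖u‖ * (e * a * ‖z - z'‖) ≤ 1 * (e * 1 * ‖z - z'‖) := by
      gcongr
    calc ‖u‖ * (e * a * ‖z - z'‖) ≤ 1 * (e * 1 * ‖z - z'‖) := h9
      _ = K * ‖z - z'‖ * (1 - a) ^ 2 := by rw [hK]; field_simp
      _ ≤ _ := by gcongr
  have hC : ContractingWith ⟨K, hK0.le⟩ (hmaps.restrict Ψ (closedBall 0 1) (closedBall 0 1)) := by
    refine ⟨by exact_mod_cast hK1, LipschitzWith.of_dist_le_mul fun x y => ?_⟩
    have hx := x.2
    have hy := y.2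
    rw [mem_closedBall, dist_zero_right] at hx hy
    have := hcon x y hx hy
    rw [Subtype.dist_eq, Subtype.dist_eq, dist_eq_norm, dist_eq_norm]
    exact this
  obtain ⟨z, hz, hfix, _⟩ := hC.exists_fixedPoint' (isCompact_closedBall (0 : ℂ) 1).isComplete
    hmaps (mem_closedBall_self zero_le_one) (edist_ne_top _ _)
  refine ⟨z, hz, ?_⟩
  rw [mem_closedBall, dist_zero_right] at hz
  have hb := b_ne ha ha1 hz
  have hd := hden z hz
  have hdn : (1 + e / (1 - a * z) : ℂ) ≠ 0 := by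
    intro h; rw [h, norm_zero] at hd; linarith
  have h5 : u / (1 + e / (1 - a * z)) = z := hfix
  rw [div_eq_iff hdn] at h5
  have h6 : w = u + e / a := by rw [hu]; ring
  have h7 : (e / a : ℂ) / (1 - a * z) = e * z / (1 - a * z) + e / a := by
    rw [div_div, div_add_div _ _ hb ha', div_eq_div_iff (mul_ne_zero ha' hb) (mul_ne_zero hb ha')]
    ring
  rw [chi, ofReal_div, h6, h5, h7]
  ring

end basics

end Pool.Agent.Lib.MP_c3d375_an.FarX
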