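import Pool.Agent.Lib.MP_c3d375_an.Neg.H02.FarA

/-!
# MP_c3d375_an, negation: the point FAR
-/

open Complex Metric Set Filter Topology Polynomial

namespace Pool.Agent.Lib.MP_c3d375_an.FarX

open Pool.Agent.Lib.MP_c3d375_an C3N

theorem sq_re_pos' {h : ℂ} (hh : h ∈ Complex.slitPlane) : 0 < (sq h).re := by
  rw [sq, Complex.exp_re]
  refine mul_pos (Real.exp_pos _) ?_
  have h1 : (log h / 2).im = Complex.arg h / 2 := by
    rw [show (2 : ℂ) = ((2 : ℝ) : ℂ) by norm_num, Complex.div_ofReal_im, Complex.log_im]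
  rw [h1]
  have h2 := Complex.neg_pi_lt_arg h
  have h3 := Complex.arg_le_pi h
  have h4 : Complex.arg h ≠ Real.pi := (Complex.mem_slitPlane_iff_arg.1 hh).1
  have h5 : Complex.arg h < Real.pi := lt_of_le_of_ne h3 h4
  exact Real.cos_pos_of_mem_Ioo ⟨by linarith, by linarith⟩

theorem differentiableAt_sq {h : ℂ} (hh : h ∈ Complex.slitPlane) : DifferentiableAt ℂ sq h :=
  ((Complex.hasDerivAt_log hh).div_const 2).cexp.differentiableAt

theorem sq_mem_slit {c : ℂ} (hc : 0 < c.re) : c ^ 2 ∈ Complex.slitPlane := by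
  rw [Complex.mem_slitPlane_iff]
  by_contra hcon
  push Not at hcon
  obtain ⟨h1, h2⟩ := hcon
  rw [pow_two, mul_re] at h1
  rw [pow_two, mul_im] at h2
  have h3 : c.re * c.im = 0 := by linarith
  rcases mul_eq_zero.1 h3 with h | h
  · linarith
  · rw [h] at h1
    nlinarith

theorem sq_add_mem_slit {c : ℂ} (hc : 0 < c.re) {t : ℝ} (ht : 0 ≤ t) :
    c ^ 2 + t ∈ Complex.slitPlane := by
  rw [Complex.mem_slitPlane_iff]
  by_contra hcon
  push Not at hcon
  obtain ⟨h1, h2⟩ := hcon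
  rw [add_re, ofReal_re, pow_two, mul_re] at h1
  rw [add_im, ofReal_im, pow_two, mul_im] at h2
  have h3 : c.re * c.im = 0 := by linarith
  rcases mul_eq_zero.1 h3 with h | h
  · linarith
  · rw [h] at h1
    nlinarith

theorem sq_of_sq {c : ℂ} (hc : 0 < c.re) : sq (c ^ 2) = c := by
  have h1 := sq_mem_slit hc
  have h0 : c ^ 2 ≠ 0 := Complex.slitPlane_ne_zero h1
  have h2 := sq_sq h0
  have h3 := sq_re_pos' h1
  rcases sq_eq_sq_iff_eq_or_eq_neg.1 h2 with h | h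
  · exact h
  · rw [h, neg_re] at h3
    linarith

theorem mem_C2 {q : ℂ} (hq : 0 < q.re) (hq2 : 0 ≤ (q ^ 2).re) : q / (1 + 2 * q ^ 2) ∈ C2 := by
  set s : ℝ := q.re with hs
  set t : ℝ := q.im with ht
  set m : ℝ := s ^ 2 + t ^ 2 with hm
  have hst : 0 ≤ s ^ 2 - t ^ 2 := by
    rw [pow_two, mul_re] at hq2
    nlinarith
  set N : ℝ := 1 + 4 * (s ^ 2 - t ^ 2) + 4 * m ^ 2 with hN
  have hN1 : 1 ≤ N := by rw [hN]; nlinarith [sq_nonneg m]
  have hN0 : 0 < N := by linarith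
  have hNc : (N : ℂ) ≠ 0 := by exact_mod_cast hN0.ne'
  have hqe : q = s + t * I := (Complex.re_add_im q).symm
  have hI : (I : ℂ) ^ 2 = -1 := Complex.I_sq
  have hdd : (1 + 2 * q ^ 2) * (1 + 2 * ((s : ℂ) - t * I) ^ 2) = N := by
    rw [hqe, hN, hm]
    push_cast
    have hI4 : (I : ℂ) ^ 4 = 1 := by rw [show (4 : ℕ) = 2 * 2 by norm_num, pow_mul, hI]; norm_num
    have hI3 : (I : ℂ) ^ 3 = -I := by
      rw [show (3 : ℕ) = 2 + 1 by norm_num, pow_succ, hI]; ring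
    ring_nf
    rw [hI, hI4]
    ring
  have hd : (1 + 2 * q ^ 2 : ℂ) ≠ 0 := by
    intro h
    rw [h, zero_mul] at hdd
    exact hNc hdd.symm
  have hw : q / (1 + 2 * q ^ 2) = ((s * (1 + 2 * m) / N : ℝ) : ℂ) +
      ((t * (1 - 2 * m) / N : ℝ) : ℂ) * I := by
    rw [div_eq_iff hd]
    have h1 : q * N = ((s * (1 + 2 * m) : ℝ) + (t * (1 - 2 * m) : ℝ) * I) * (1 + 2 * q ^ 2) := by
      have h2 : q * (1 + 2 * ((s : ℂ) - t * I) ^ 2) =
          (s * (1 + 2 * m) : ℝ) + (t * (1 - 2 * m) : ℝ) * I := by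
        rw [hqe, hm]
        push_cast
        have hI3 : (I : ℂ) ^ 3 = -I := by
          rw [show (3 : ℕ) = 2 + 1 by norm_num, pow_succ, hI]; ring
        ring_nf
        rw [hI, hI3]
        ring
      rw [← h2, ← hdd]
      ring
    have h3 : (((s * (1 + 2 * m) / N : ℝ) : ℂ) + ((t * (1 - 2 * m) / N : ℝ) : ℂ) * I) =
        ((s * (1 + 2 * m) : ℝ) + (t * (1 - 2 * m) : ℝ) * I) / N := by
      push_cast
      ring
    rw [h3, div_mul_eq_mul_div, ← h1, mul_div_assoc, div_self hNc, mul_one]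
  set x : ℝ := s * (1 + 2 * m) / N with hx
  set y : ℝ := t * (1 - 2 * m) / N with hy
  have hm0 : 0 ≤ m := by positivity
  have hx0 : 0 ≤ x := by positivity
  have key : 4 * (x ^ 2 + y ^ 2) ^ 2 ≤ x ^ 2 - y ^ 2 := by
    have h1 : x ^ 2 + y ^ 2 = m / N := by
      rw [hx, hy, div_pow, div_pow, ← add_div, div_eq_div_iff (by positivity) (by positivity)]
      have : (s * (1 + 2 * m)) ^ 2 + (t * (1 - 2 * m)) ^ 2 = m * N := by
        rw [hN, hm]; ring
      rw [this]; ring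
    have h2 : x ^ 2 - y ^ 2 = ((s ^ 2 - t ^ 2) * (1 + 4 * m ^ 2) + 4 * m ^ 2) / N ^ 2 := by
      rw [hx, hy, div_pow, div_pow, ← sub_div]
      congr 1
      rw [hm]; ring
    rw [h1, h2, div_pow, ← mul_div_assoc]
    apply div_le_div_of_nonneg_right _ (by positivity)
    have : 0 ≤ (s ^ 2 - t ^ 2) * (1 + 4 * m ^ 2) := mul_nonneg hst (by positivity)
    linarith
  have hre : (q / (1 + 2 * q ^ 2)).re = x := by rw [hw]; simp
  have him : (q / (1 + 2 * q ^ 2)).im = y := by rw [hw]; simp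
  have hx12 : x ≤ 1 / 2 := by
    by_contra hcon
    push Not at hcon
    have h1 : x ^ 4 * 4 ≤ x ^ 2 := by nlinarith [sq_nonneg (x * y), sq_nonneg (y ^ 2), sq_nonneg y]
    have h2 : (1 : ℝ) / 4 < x ^ 2 := by nlinarith
    have h3 : x ^ 2 < 4 * x ^ 4 := by nlinarith
    linarith
  refine ⟨by rw [hre]; exact hx0, by rw [hre]; exact hx12, ?_⟩
  rw [hre, him]
  have h4 : 0 ≤ x - x ^ 3 := by nlinarith [mul_nonneg hx0 hx0, mul_nonneg hx0 (mul_nonneg hx0 hx0)]
  apply abs_le_of_sq_le_sq _ h4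
  have h5 : y ^ 2 ≤ x ^ 2 - 4 * x ^ 4 := by
    nlinarith [sq_nonneg (x * y), sq_nonneg (y ^ 2), sq_nonneg y]
  nlinarith [sq_nonneg (x ^ 2), sq_nonneg (x ^ 3), pow_nonneg hx0 4]

section basics

variable {a e : ℝ}

theorem norm_e_div_b (ha : 0 < a) (ha1 : a < 1) (he : 0 < e) {z : ℂ} (hz : ‖z‖ ≤ 1) :
    ‖(e / (1 - a * z) : ℂ)‖ ≤ e / (1 - a) := by
  rw [norm_div, Complex.norm_real, Real.norm_eq_abs, abs_of_pos he]
  have := norm_b_ge ha hz
  have h1a : 0 < 1 - a := by linarith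
  gcongr

theorem re_e_div_b (ha : 0 < a) (ha1 : a < 1) (he : 0 < e) {z : ℂ} (hz : ‖z‖ ≤ 1) :
    0 ≤ (e / (1 - a * z) : ℂ).re := by
  rw [Complex.div_re, ofReal_re, ofReal_im, zero_mul, zero_div, add_zero]
  have := re_b ha hz
  have h3 := Complex.normSq_nonneg (1 - a * z : ℂ)
  have h4 : 0 ≤ (1 - a * z : ℂ).re := by linarith
  positivity

theorem one_sub_chi (ha : 0 < a) (z : ℂ) :
    1 - a * chi a e z = (1 - a * z) - e / (1 - a * z) := by
  have ha' : (a : ℂ) ≠ 0 := by exact_mod_cast ha.ne'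
  rw [chi, ofReal_div, mul_add, mul_div_assoc', mul_div_cancel₀ _ ha']
  ring

theorem re_chi (ha : 0 < a) (ha1 : a < 1) (he : 0 < e) (he1 : e < (1 - a) ^ 2) {z : ℂ}
    (hz : ‖z‖ ≤ 1) : 0 < (1 - a * chi a e z).re := by
  rw [one_sub_chi ha, sub_re]
  have h1 := re_b ha hz
  have h2 := norm_e_div_b ha ha1 he hz
  have h3 := (Complex.re_le_norm (e / (1 - a * z) : ℂ)).trans h2
  have h1a : 0 < 1 - a := by linarith
  have h4 : e / (1 - a) < 1 - a := by
    rw [div_lt_iff₀ h1a]; nlinarith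
  linarith

theorem gg_chi (ha : 0 < a) (ha1 : a < 1) (he : 0 < e) {z : ℂ}
    (hz : ‖z‖ ≤ 1) : gg a e (chi a e z) = z := by
  have ha' : (a : ℂ) ≠ 0 := by exact_mod_cast ha.ne'
  have hb := b_ne ha ha1 hz
  have h1 : (1 - a * chi a e z) ^ 2 + 4 * e = ((1 - a * z) + e / (1 - a * z)) ^ 2 := by
    rw [one_sub_chi ha]
    have : (e : ℂ) = (1 - a * z) * (e / (1 - a * z)) := by rw [mul_div_cancel₀ _ hb]
    set E : ℂ := e / (1 - a * z) with hE
    rw [this]
    ring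
  have h2 : 0 < ((1 - a * z : ℂ) + e / (1 - a * z)).re := by
    rw [add_re]
    have h3 := re_b ha hz
    have h4 := re_e_div_b ha ha1 he hz
    linarith
  rw [gg, h1, sq_of_sq h2]
  have h5 : (a : ℂ) * chi a e z = a * z + e / (1 - a * z) := by
    have := one_sub_chi (e := e) ha z
    linear_combination -this
  rw [h5, div_eq_iff (by simpa using ha')]
  ring

theorem differentiableAt_gg (ha : 0 < a) (he : 0 < e) {w : ℂ} (hw : 0 < (1 - a * w).re) :
    DifferentiableAt ℂ (gg a e) w := by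
  have h1 : (1 - a * w) ^ 2 + 4 * e ∈ Complex.slitPlane := by
    have := sq_add_mem_slit hw (t := 4 * e) (by positivity)
    push_cast at this
    exact this
  have h2 : DifferentiableAt ℂ (fun w : ℂ => sq ((1 - a * w) ^ 2 + 4 * e)) w :=
    DifferentiableAt.comp (g := sq) (f := fun w : ℂ => (1 - a * w) ^ 2 + 4 * e) w
      (differentiableAt_sq h1) (by fun_prop)
  unfold gg
  exact ((by fun_prop : DifferentiableAt ℂ (fun w : ℂ => 1 + a * w) w).sub h2).div_const _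

end basics

end Pool.Agent.Lib.MP_c3d375_an.FarX
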