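import Pool.Agent.Lib.MP_c3d375_an.Neg.H02.FarB

/-!
# MP_c3d375_an, negation: the point FAR (end)
-/

open Complex Metric Set Filter Topology Polynomial

namespace Pool.Agent.Lib.MP_c3d375_an.FarX

open Pool.Agent.Lib.MP_c3d375_an C3N

/-- `q / (1 + 2 q^2)` -/
noncomputable def G2 (q : ℂ) : ℂ := q / (1 + 2 * q ^ 2)

/-- the Cayley transform -/
noncomputable def cay (r : ℝ) (z : ℂ) : ℂ := (1 + r * z) / (1 - r * z)

noncomputable def F0 (ρ r : ℝ) (z : ℂ) : ℂ := G2 (ρ * sq (cay r z))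

theorem cay_den {r : ℝ} {z : ℂ} (h : ‖r * z‖ < 1) : (1 - r * z : ℂ) ≠ 0 := by
  intro h0
  have : (r : ℂ) * z = 1 := by linear_combination -h0
  rw [this, norm_one] at h
  exact lt_irrefl _ h

theorem cay_re {r : ℝ} {z : ℂ} (h : ‖r * z‖ < 1) : 0 < (cay r z).re := by
  have hd := cay_den h
  set u : ℂ := r * z with hu
  have hN : 0 < Complex.normSq (1 - u) := Complex.normSq_pos.2 hd
  have h1 : Complex.normSq u < 1 := by
    rw [Complex.normSq_eq_norm_sq]
    nlinarith [norm_nonneg u]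
  have h2 : (cay r z).re = (1 - Complex.normSq u) / Complex.normSq (1 - u) := by
    rw [cay, ← hu, Complex.div_re, ← add_div]
    congr 1
    simp only [add_re, one_re, sub_re, add_im, one_im, sub_im, Complex.normSq_apply]
    ring
  rw [h2]
  exact div_pos (by linarith) hN

theorem den_ne {q : ℂ} (hq2 : 0 ≤ (q ^ 2).re) : (1 + 2 * q ^ 2 : ℂ) ≠ 0 := by
  intro h
  have := congrArg Complex.re h
  rw [add_re, one_re, zero_re, mul_re] at this
  have h2 : (2 : ℂ).re = 2 := rfl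
  have h3 : (2 : ℂ).im = 0 := rfl
  rw [h2, h3] at this
  linarith

theorem q_facts {ρ r : ℝ} (hρ : 0 < ρ) {z : ℂ} (h : ‖r * z‖ < 1) :
    0 < ((ρ : ℂ) * sq (cay r z)).re ∧ 0 ≤ (((ρ : ℂ) * sq (cay r z)) ^ 2).re := by
  have h1 := cay_re h
  have h0 : cay r z ≠ 0 := by
    intro h2
    rw [h2, zero_re] at h1
    exact lt_irrefl _ h1
  refine ⟨?_, ?_⟩
  · rw [re_ofReal_mul]
    exact mul_pos hρ (sq_re_pos h1)
  · rw [mul_pow, sq_sq h0, ← ofReal_pow, re_ofReal_mul]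
    positivity

theorem F0_mem {ρ r : ℝ} (hρ : 0 < ρ) {z : ℂ} (h : ‖r * z‖ < 1) : F0 ρ r z ∈ C2 :=
  mem_C2 (q_facts hρ h).1 (q_facts hρ h).2

theorem differentiableAt_G2 {q : ℂ} (hq2 : 0 ≤ (q ^ 2).re) : DifferentiableAt ℂ G2 q := by
  unfold G2
  exact differentiableAt_id.div (by fun_prop) (den_ne hq2)

theorem differentiableAt_cay {r : ℝ} {z : ℂ} (h : ‖r * z‖ < 1) : DifferentiableAt ℂ (cay r) z := by
  unfold cay
  exact DifferentiableAt.div (by fun_prop) (by fun_prop) (cay_den h)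

theorem differentiableAt_F0 {ρ r : ℝ} (hρ : 0 < ρ) {z : ℂ} (h : ‖r * z‖ < 1) :
    DifferentiableAt ℂ (F0 ρ r) z := by
  have h1 : DifferentiableAt ℂ (fun z => (ρ : ℂ) * sq (cay r z)) z :=
    (DifferentiableAt.comp (g := sq) (f := cay r) z
      (differentiableAt_sq (Or.inl (cay_re h))) (differentiableAt_cay h)).const_mul _
  exact DifferentiableAt.comp (g := G2) (f := fun z => (ρ : ℂ) * sq (cay r z)) z
    (differentiableAt_G2 (q_facts hρ h).2) h1

theorem sq_one : sq 1 = 1 := by simp [sq]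

theorem hasDerivAt_F0 {ρ r : ℝ} :
    HasDerivAt (F0 ρ r) (ρ * r * (1 - 2 * ρ ^ 2) / (1 + 2 * ρ ^ 2) ^ 2) 0 := by
  have hc0 : cay r 0 = 1 := by simp [cay]
  have h1 : HasDerivAt (cay r) (2 * r) 0 := by
    have ha : HasDerivAt (fun z : ℂ => 1 + r * z) (r * 1) 0 := ((hasDerivAt_id 0).const_mul _).const_add _
    have hb : HasDerivAt (fun z : ℂ => 1 - r * z) (-(r * 1)) 0 :=
      ((hasDerivAt_id 0).const_mul _).const_sub _
    have := ha.div hb (by simp)
    refine this.congr_deriv ?_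
    simp
    ring
  have h2 : HasDerivAt (fun z => sq (cay r z)) (1 / (2 * 1) * (2 * r)) 0 := by
    have h3 : HasDerivAt sq (1 / (2 * 1)) (cay r 0) := by
      rw [hc0]
      have := hasDerivAt_sq (h := 1) (by simp)
      rwa [sq_one] at this
    exact h3.comp 0 h1
  have h3 : HasDerivAt (fun z => (ρ : ℂ) * sq (cay r z)) (ρ * (1 / (2 * 1) * (2 * r))) 0 :=
    h2.const_mul _
  have hq0 : (ρ : ℂ) * sq (cay r 0) = ρ := by rw [hc0, sq_one, mul_one]
  have hden : (1 + 2 * (ρ : ℂ) ^ 2) ≠ 0 := by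
    have : (1 + 2 * ρ ^ 2 : ℝ) ≠ 0 := by positivity
    exact_mod_cast this
  have h4 : HasDerivAt G2 ((1 - 2 * ρ ^ 2) / (1 + 2 * ρ ^ 2) ^ 2) ((ρ : ℂ) * sq (cay r 0)) := by
    rw [hq0]
    have hb : HasDerivAt (fun q : ℂ => 1 + 2 * q ^ 2) (2 * (2 * (ρ : ℂ))) (ρ : ℂ) := by
      have := ((hasDerivAt_pow 2 (ρ : ℂ)).const_mul (2 : ℂ)).const_add (1 : ℂ)
      refine this.congr_deriv ?_
      simp
    have := (hasDerivAt_id (ρ : ℂ)).div hb hden
    refine this.congr_deriv ?_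
    simp only [id]
    congr 1
    ring
  have h5 : HasDerivAt (F0 ρ r) ((1 - 2 * ρ ^ 2) / (1 + 2 * ρ ^ 2) ^ 2 *
      (ρ * (1 / (2 * 1) * (2 * r)))) 0 := h4.comp 0 h3
  refine h5.congr_deriv ?_
  ring

theorem far_point {a e κ : ℝ} (ha : 0 < a) (ha1 : a < 1) (he : 0 < e) (he1 : e < (1 - a) ^ 2)
    (hκ : 1 ≤ κ) (he2 : κ ^ 2 * e ≤ 1 / 32) :
    ∃ w ∈ W (C1 a e) C2, w.im = κ ^ 2 * e ∧ w.re ≤ 8 * (κ * √e) ^ 3 := by
  have ha' : (a : ℂ) ≠ 0 := by exact_mod_cast ha.ne'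
  set ρ : ℝ := κ * √e with hρ
  have hρ0 : 0 < ρ := by
    have := Real.sqrt_pos.2 he
    positivity
  have hρ2 : ρ ^ 2 = κ ^ 2 * e := by rw [hρ, mul_pow, Real.sq_sqrt he.le]
  set m : ℝ := ρ ^ 2 with hm
  have hm1 : m ≤ 1 / 32 := by rw [hρ2]; exact he2
  have hm0 : 0 < m := by positivity
  have hem : e ≤ m := by
    rw [hρ2]
    have h1 : 1 ≤ κ ^ 2 := by nlinarith
    nlinarith
  have hρ1 : ρ ≤ 1 / 4 := by
    by_contra hcon
    push Not at hcon
    nlinarith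
  set r : ℝ := 1 - e with hr
  have hr1 : r < 1 := by linarith
  have hr0 : 0 < r := by linarith
  set V : Set ℂ := {w : ℂ | 0 < (1 - a * w).re} ∩ gg a e ⁻¹' (ball 0 r⁻¹) with hV
  have hV1 : IsOpen {w : ℂ | 0 < (1 - a * w).re} := isOpen_lt continuous_const (by fun_prop)
  have hVo : IsOpen V := by
    refine ContinuousOn.isOpen_inter_preimage (fun w hw => ?_) hV1 isOpen_ball
    exact (differentiableAt_gg ha he hw).continuousAt.continuousWithinAt
  have hVr : ∀ w ∈ V, ‖r * gg a e w‖ < 1 := by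
    intro w hw
    have h1 := hw.2
    rw [mem_preimage, mem_ball, dist_zero_right] at h1
    rw [norm_mul, Complex.norm_real, Real.norm_eq_abs, abs_of_pos hr0]
    calc r * ‖gg a e w‖ < r * r⁻¹ := by gcongr
      _ = 1 := mul_inv_cancel₀ hr0.ne'
  have hzr : ∀ z : ℂ, ‖z‖ ≤ 1 → ‖r * z‖ < 1 := by
    intro z hz
    rw [norm_mul, Complex.norm_real, Real.norm_eq_abs, abs_of_pos hr0]
    nlinarith [norm_nonneg z]
  have hCV : C1 a e ⊆ V := by
    rintro _ ⟨z, hz, rfl⟩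
    rw [mem_closedBall, dist_zero_right] at hz
    refine ⟨re_chi ha ha1 he he1 hz, ?_⟩
    rw [mem_preimage, gg_chi ha ha1 he hz, mem_ball, dist_zero_right]
    have : 1 < r⁻¹ := (one_lt_inv₀ hr0).2 hr1
    linarith
  set f : ℂ → ℂ := fun w => F0 ρ r (gg a e w) with hf
  have hfd : DifferentiableOn ℂ f V := by
    intro w hw
    refine (DifferentiableAt.comp (g := F0 ρ r) (f := gg a e) w
      (differentiableAt_F0 hρ0 (hVr w hw)) (differentiableAt_gg ha he hw.1)).differentiableWithinAt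
  have hfC : f '' C1 a e ⊆ C2 := by
    rintro _ ⟨w, hw, rfl⟩
    exact F0_mem hρ0 (hVr w (hCV hw))
  set c : ℂ := (e / a : ℂ) with hc
  have hchi0 : chi a e 0 = c := by rw [chi, ofReal_div]; simp [hc]
  have hball := ball_subset_C1 ha ha1 he he1
  rw [← hc] at hball
  have hcV : c ∈ V := hCV (hball (mem_closedBall_self zero_le_one))
  -- the value and the derivative
  have hfc : f c = ((ρ / (1 + 2 * m) : ℝ) : ℂ) := by
    rw [hf]
    simp only
    rw [← hchi0, gg_chi ha ha1 he (by simp), F0, G2, cay, hm]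
    simp [sq_one]
  set D : ℝ := ρ * r * (1 - 2 * m) / ((1 + 2 * m) ^ 2 * (1 + e)) with hD
  have hfd' : deriv f c = (D : ℂ) := by
    have h1 : HasDerivAt f (deriv f c) (chi a e 0) := by
      rw [hchi0]
      exact ((hfd c hcV).differentiableAt (hVo.mem_nhds hcV)).hasDerivAt
    have h2 : HasDerivAt (chi a e) (1 + e) 0 := by
      have ha2 : HasDerivAt (fun z : ℂ => 1 - a * z) (-(a * 1)) 0 :=
        ((hasDerivAt_id 0).const_mul _).const_sub _
      have ha3 := ((hasDerivAt_const (0 : ℂ) ((e / a : ℝ) : ℂ)).div ha2 (by simp))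
      have ha4 := (hasDerivAt_id (0 : ℂ)).add ha3
      refine (ha4.congr_deriv ?_)
      push_cast
      simp
      field_simp
    have h3 := h1.comp 0 h2
    have h4 : (f ∘ chi a e) =ᶠ[𝓝 0] F0 ρ r := by
      filter_upwards [closedBall_mem_nhds (0 : ℂ) one_pos] with z hz
      rw [mem_closedBall, dist_zero_right] at hz
      rw [hf]
      simp only [Function.comp]
      rw [gg_chi ha ha1 he hz]
    have h5 := h3.congr_of_eventuallyEq h4.symm
    have h6 := h5.unique (hasDerivAt_F0 (ρ := ρ) (r := r))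
    have h1e : (1 + e : ℂ) ≠ 0 := by
      have : (1 + e : ℝ) ≠ 0 := by positivity
      exact_mod_cast this
    have h7 : deriv f c = (ρ * r * (1 - 2 * ρ ^ 2) / (1 + 2 * ρ ^ 2) ^ 2) / (1 + e) := by
      rw [eq_div_iff h1e]; exact h6
    rw [h7, hD, hm]
    push_cast
    rw [div_div]
  -- estimates
  have hDρ : ρ / 2 ≤ D := by
    rw [hD, div_le_div_iff₀ (by norm_num) (by positivity)]
    have h1 : (1 + 2 * m) ^ 2 * (1 + e) ≤ r * (1 - 2 * m) * 2 := by
      have h2 : (1 + 2 * m) ^ 2 ≤ 289 / 256 := by nlinarith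
      have h3 : (1 + 2 * m) ^ 2 * (1 + e) ≤ 289 / 256 * (33 / 32) := by
        apply mul_le_mul h2 (by linarith) (by positivity) (by norm_num)
      have h4 : 29 / 32 ≤ r * (1 - 2 * m) := by rw [hr]; nlinarith
      linarith
    nlinarith
  have hD0 : 0 < D := by linarith
  set s : ℝ := m / D with hs
  have hs0 : 0 ≤ s := by positivity
  have hs1 : s ≤ 1 := by
    rw [hs, div_le_one hD0]
    nlinarith
  set t : ℝ := √(1 - s ^ 2) with ht
  have ht2 : t ^ 2 = 1 - s ^ 2 := Real.sq_sqrt (by nlinarith)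
  have ht0 : 0 ≤ t := Real.sqrt_nonneg _
  have ht1 : 1 - s ^ 2 ≤ t := by nlinarith
  set ζ : ℂ := ⟨-t, s⟩ with hζ
  have hζ1 : ‖ζ‖ ≤ 1 := by
    have h1 : ‖ζ‖ ^ 2 = 1 := by
      rw [← Complex.normSq_eq_norm_sq, Complex.normSq_apply, hζ]
      simp only
      nlinarith
    nlinarith [norm_nonneg ζ]
  refine ⟨_, disc_mem_W' one_pos hball hVo hCV hfd hfC hζ1, ?_, ?_⟩
  · rw [hfc, hfd', ofReal_one, one_mul, add_im, ofReal_im, zero_add, im_ofReal_mul, hζ]
    simp only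
    rw [hs, mul_div_cancel₀ _ hD0.ne', hρ2]
  · rw [hfc, hfd', ofReal_one, one_mul, add_re, ofReal_re, re_ofReal_mul, hζ]
    simp only
    have h1 : ρ / (1 + 2 * m) - D = ρ * (2 * e + 4 * m) / ((1 + 2 * m) ^ 2 * (1 + e)) := by
      rw [hD, hr]
      field_simp
      ring
    have h2 : ρ * (2 * e + 4 * m) / ((1 + 2 * m) ^ 2 * (1 + e)) ≤ ρ * (2 * e + 4 * m) := by
      apply div_le_self (by positivity)
      have : 1 ≤ (1 + 2 * m) ^ 2 := by nlinarith
      nlinarith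
    have h3 : D * s ^ 2 ≤ 2 * ρ ^ 3 := by
      have h4 : D * s ^ 2 = m ^ 2 / D := by
        rw [hs]; field_simp
      rw [h4, div_le_iff₀ hD0, hm]
      have : 2 * ρ ^ 3 * (ρ / 2) ≤ 2 * ρ ^ 3 * D := by gcongr
      nlinarith
    have h5 : ρ * (2 * e + 4 * m) ≤ 6 * ρ ^ 3 := by
      have : ρ * (2 * e + 4 * m) ≤ ρ * (6 * m) := by gcongr; linarith
      rw [hm] at this
      nlinarith
    have h6 : D * (1 - s ^ 2) ≤ D * t := by gcongr
    have h7 : D * -t = -(D * t) := by ring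
    rw [h7]
    nlinarith

theorem far_st : C3N.FARStatement := by
  intro a ha ha1
  have ha0 : 0 < a := by linarith
  have h1a : 0 < 1 - a := by linarith
  set κ : ℝ := (1 - a) ^ (-(2 / 3 : ℝ)) with hκ
  have hκ1 : 1 ≤ κ := by
    rw [hκ]
    exact Real.one_le_rpow_of_pos_of_le_one_of_nonpos h1a (by linarith) (by norm_num)
  have hκ0 : 0 < κ := by linarith
  refine ⟨min ((1 - a) ^ 2) (1 / (32 * κ ^ 2)), by positivity, fun e he he0 => ?_⟩
  have he1 : e < (1 - a) ^ 2 := he0.trans_le (min_le_left _ _)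
  have he2 : κ ^ 2 * e ≤ 1 / 32 := by
    have h1 := he0.le.trans (min_le_right _ _)
    rw [le_div_iff₀ (by positivity)] at h1
    linarith
  obtain ⟨w, hw, him, hre⟩ := far_point ha0 ha1 he he1 hκ1 he2
  refine ⟨w, hw, ?_, ?_⟩
  · rw [him, hκ, ← Real.rpow_natCast, ← Real.rpow_mul h1a.le]
    norm_num
  · refine hre.trans (le_of_eq ?_)
    have h1 : κ ^ 3 = (1 - a) ^ (-2 : ℝ) := by
      rw [hκ, ← Real.rpow_natCast, ← Real.rpow_mul h1a.le]
      norm_num
    have h2 : (√e) ^ 3 = e ^ (3 / 2 : ℝ) := by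
      rw [Real.sqrt_eq_rpow, ← Real.rpow_natCast, ← Real.rpow_mul he.le]
      norm_num
    rw [mul_pow, h1, h2, mul_assoc]

end Pool.Agent.Lib.MP_c3d375_an.FarX
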